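import Pool.Agent.helper1.FI4.SpecHT
import Pool.Agent.helper59.FI4.SpecP4

set_option autoImplicit false

namespace Pool.Agent.FI4

open Pool.Agent.helper58.DC Pool.Agent.DI Pool.Agent.GR Pool.Agent.OB Pool.Agent.DR Pool.Agent.FI Pool.Agent.FI3

theorem BS1_sum {α : Type} {N : Type} [AddCommMonoid N] (S : Set α) (f : α → N) (b : α) (hb : b ∈ S)
    (h0 : ∀ x, x ≠ b → f x = 0) : ∑ᶠ x ∈ S, f x = f b := by
  classical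
  rw [finsum_eq_single _ b]
  · exact finsum_eq_if.trans (if_pos hb)
  · intro x hx
    rw [h0 x hx]
    exact finsum_zero

theorem BS1 (hBES : BES4_stmt) (hTPR : FI.TPR_stmt) : BS1_stmt := by
  classical
  intro p M hS hp G _ _ D x θ χ h ψ hψ
  have hmem : ψ ∈ Blk M χ (⊤ : Subgroup G) := by
    obtain ⟨-, h2, -, -, -⟩ := hTPR p M hS G
    have h3 : SB M (⊤ : Subgroup G) θ χ := (h2 θ χ).1 h.rt.ind
    exact ⟨hψ.1, (h2 ψ χ).2 (hψ.2.trans h3)⟩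
  have hB := hBES p M hS hp G D x θ χ h (fun φ => if φ = ψ then 1 else 0)
  have h1 : ∀ u : G, ∑ᶠ φ ∈ Blk M χ (⊤ : Subgroup G), (if φ = ψ then (1 : ℂ) else 0) *
      dd M (Cz (⊤ : Subgroup G) u) θ φ u = dd M (Cz (⊤ : Subgroup G) u) θ ψ u := by
    intro u
    rw [BS1_sum (Blk M χ (⊤ : Subgroup G)) (fun φ => (if φ = ψ then (1 : ℂ) else 0) *
      dd M (Cz (⊤ : Subgroup G) u) θ φ u) ψ hmem]
    · show (if ψ = ψ then (1 : ℂ) else 0) * dd M (Cz (⊤ : Subgroup G) u) θ ψ u = _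
      rw [if_pos rfl, one_mul]
    · intro φ hφ
      show (if φ = ψ then (1 : ℂ) else 0) * dd M (Cz (⊤ : Subgroup G) u) θ φ u = 0
      rw [if_neg hφ, zero_mul]
  have h2 : ∑ᶠ φ ∈ Blk M χ (⊤ : Subgroup G), ‖(if φ = ψ then (1 : ℂ) else 0)‖ ^ 2 = (1 : ℝ) := by
    rw [BS1_sum (Blk M χ (⊤ : Subgroup G)) (fun φ => ‖(if φ = ψ then (1 : ℂ) else 0)‖ ^ 2) ψ hmem]
    · show ‖(if ψ = ψ then (1 : ℂ) else 0)‖ ^ 2 = (1 : ℝ)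
      rw [if_pos rfl, norm_one, one_pow]
    · intro φ hφ
      show ‖(if φ = ψ then (1 : ℂ) else 0)‖ ^ 2 = (0 : ℝ)
      rw [if_neg hφ, norm_zero]
      norm_num
  have h3 : ∑ᶠ u ∈ RG M D θ, ‖∑ᶠ φ ∈ Blk M χ (⊤ : Subgroup G), (if φ = ψ then (1 : ℂ) else 0) *
      dd M (Cz (⊤ : Subgroup G) u) θ φ u‖ ^ 2 =
      ∑ᶠ u ∈ RG M D θ, ‖dd M (Cz (⊤ : Subgroup G) u) θ ψ u‖ ^ 2 := by
    refine finsum_mem_congr rfl fun u _ => ?_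
    rw [h1 u]
  have hB' : ∑ᶠ u ∈ RG M D θ, ‖∑ᶠ φ ∈ Blk M χ (⊤ : Subgroup G), (if φ = ψ then (1 : ℂ) else 0) *
      dd M (Cz (⊤ : Subgroup G) u) θ φ u‖ ^ 2 ≤ (Nat.card D : ℝ) * iI M D θ *
      ∑ᶠ φ ∈ Blk M χ (⊤ : Subgroup G), ‖(if φ = ψ then (1 : ℂ) else 0)‖ ^ 2 := hB
  rw [h3, h2, mul_one] at hB'
  exact hB'

end Pool.Agent.FI4
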