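import Pool.Agent.helper70.FI4.SpecK

set_option autoImplicit false

namespace Pool.Agent.FI4

open Pool.Agent.helper58.DC Pool.Agent.DI Pool.Agent.GR Pool.Agent.OB Pool.Agent.DR Pool.Agent.FI Pool.Agent.FI3

theorem KRA_fin {G : Type} [Group G] [Finite G] (hB2 : B2_stmt) (M : Ideal (integralClosure ℤ ℂ))
    (χ : G → ℂ) (H : Subgroup G) : (Blk M χ H).Finite :=
  (hB2 G H).1.subset fun _ hψ => hψ.1

theorem KRA_self {G : Type} [Group G] [Finite G] (hB2 : B2_stmt) (N : Subgroup G) (ψ : G → ℂ)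
    (hψ : ψ ∈ IrrOn N) : ∑ᶠ g ∈ (N : Set G), ψ g * ψ g⁻¹ = (Nat.card N : ℂ) := by
  classical
  obtain ⟨-, -, -, h0, ho⟩ := (hB2 G N).2 ψ hψ
  have h1 := ho ψ hψ
  rw [if_pos rfl] at h1
  rw [← h1]
  refine finsum_congr fun g => ?_
  by_cases hg : g ∈ N
  · exact finsum_eq_if.trans (if_pos hg)
  · rw [h0 g hg, zero_mul]
    exact finsum_zero

theorem KRA (hB2 : B2_stmt) (hPPT : PPT_stmt) (hBR2 : Pool.Agent.GR.BR2_stmt) (hLBN : LBN_stmt) :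
    KRA_stmt := by
  classical
  intro p M hS G _ _ χ N
  have hfB : ∀ H : Subgroup G, (Blk M χ H).Finite := fun H => KRA_fin hB2 M χ H
  have h1 : ∑ᶠ g ∈ (N : Set G), Sf (Blk M χ N) g g =
      (Nat.card N : ℂ) * ((Blk M χ N).ncard : ℂ) := by
    unfold Sf
    rw [finsum_mem_comm (fun g ψ => ψ g * ψ g⁻¹) (Set.toFinite (N : Set G)) (hfB N)]
    have h2 : ∑ᶠ ψ ∈ Blk M χ N, ∑ᶠ g ∈ (N : Set G), ψ g * ψ g⁻¹ =
        ∑ᶠ ψ ∈ Blk M χ N, (Nat.card N : ℂ) :=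
      finsum_mem_congr rfl fun ψ hψ => KRA_self hB2 N ψ hψ.1
    rw [h2, finsum_mem_eq_finite_toFinset_sum _ (hfB N), Finset.sum_const, nsmul_eq_mul,
      Set.ncard_eq_toFinset_card _ (hfB N), mul_comm]
  rw [← h1, hPPT p hS.pr G N (fun g => Sf (Blk M χ N) g g)]
  refine finsum_mem_congr rfl fun y hy => ?_
  obtain ⟨hyN, hyp⟩ := hy
  have h3 : ∑ᶠ v ∈ {v : G | v ∈ Cz N y ∧ PReg p v}, Sf (Blk M χ N) (y * v) (y * v) =
      ∑ᶠ v ∈ {v : G | v ∈ Cz N y ∧ PReg p v}, Sf (Blk M χ (Cz N y)) v v :=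
    finsum_mem_congr rfl fun v hv =>
      hBR2 p M hS G N y hyN hyp χ v hv.1 v hv.1 hv.2 hv.2
  rw [h3]
  have hc : (Nat.card (Cz N y) : ℂ) ≠ 0 := Nat.cast_ne_zero.2 Nat.card_pos.ne'
  rw [((hLBN p M hS G (Cz N y)).2 χ).2.1]
  unfold Sf
  rw [finsum_mem_comm (fun v ψ => ψ v * ψ v⁻¹) (Set.toFinite _) (hfB (Cz N y)),
    finsum_mem_eq_finite_toFinset_sum _ (hfB (Cz N y)),
    finsum_mem_eq_finite_toFinset_sum _ (hfB (Cz N y)), Finset.mul_sum]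
  refine Finset.sum_congr rfl fun ψ _ => ?_
  unfold EE
  rw [mul_div_cancel₀ _ hc]

end Pool.Agent.FI4
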